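import Mathlib

set_option autoImplicit false
open MeasureTheory Set Filter Topology

namespace Pool.Agent.Results.MP_e4dd62_an.BetaGtRomanov

/-- `1 - |ξ|^α` on `[-1,1]` is the restriction of the Fourier transform of a finite nonnegative
Borel measure on `ℝ`. -/
def PosDefOnInterval (α : ℝ) : Prop :=
  ∃ μ : Measure ℝ, IsFiniteMeasure μ ∧ ∀ ξ ∈ Icc (-1 : ℝ) 1,
    ∫ x, Complex.exp (Complex.I * ξ * x) ∂μ = ((1 - |ξ| ^ α : ℝ) : ℂ)

/-- `β₀` -/
noncomputable def beta0 : ℝ := sSup {α : ℝ | 0 < α ∧ PosDefOnInterval α}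

/-- `ρ(α) = ∫_0^{3π/2} cos t / t^{2-α} dt` -/
noncomputable def rho (α : ℝ) : ℝ := ∫ t in (0 : ℝ)..(3 * Real.pi / 2), Real.cos t / t ^ (2 - α)

/-! ### Fourier series of functions of period four -/

/-- Fourier coefficients on `[-1,3]` -/
noncomputable def cf (h : ℝ → ℂ) (n : ℤ) : ℂ :=
  (1 / 4 : ℂ) * ∫ x in (-1 : ℝ)..3, Complex.exp (-(Complex.I * (Real.pi * n / 2) * x)) * h x

instance fact4 : Fact ((0 : ℝ) < 4) := ⟨by norm_num⟩

theorem fourier_rep (h : ℝ → ℂ) (hc : ContinuousOn h (Icc (-1) 3)) (hp : h (-1) = h 3)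
    (hs : Summable (cf h)) (ξ : ℝ) (hξ : ξ ∈ Ico (-1 : ℝ) 3) :
    HasSum (fun n : ℤ => cf h n * Complex.exp (Complex.I * (Real.pi * n / 2) * ξ)) (h ξ) := by
  have e3 : (-1 : ℝ) + 4 = 3 := by norm_num
  have hcont : Continuous (AddCircle.liftIco 4 (-1) h) := by
    refine AddCircle.liftIco_continuous ?_ ?_
    · rw [e3]; exact hp
    · rw [e3]; exact hc
  let f : C(AddCircle (4 : ℝ), ℂ) := ⟨AddCircle.liftIco 4 (-1) h, hcont⟩
  have hcoef : fourierCoeff f = cf h := by
    funext n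
    have h1 := fourierCoeff_liftIco_eq (T := 4) (a := -1) h n
    change fourierCoeff (AddCircle.liftIco 4 (-1) h) n = _
    rw [h1, fourierCoeffOn_eq_integral]
    unfold cf
    have e4 : (-1 : ℝ) + 4 - -1 = 4 := by norm_num
    rw [e3]
    have e5 : (3 : ℝ) - -1 = 4 := by norm_num
    rw [Complex.real_smul]
    congr 1
    · push_cast; norm_num
    · refine intervalIntegral.integral_congr (fun x _ => ?_)
      rw [fourier_coe_apply, smul_eq_mul]
      congr 1
      congr 1
      push_cast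
      ring
  have hsum : Summable (fourierCoeff f) := by rw [hcoef]; exact hs
  have h2 := has_pointwise_sum_fourier_series_of_summable hsum (ξ : AddCircle (4 : ℝ))
  have h3 : f (ξ : AddCircle (4 : ℝ)) = h ξ := by
    change AddCircle.liftIco 4 (-1) h (ξ : AddCircle (4 : ℝ)) = h ξ
    exact AddCircle.liftIco_coe_apply (by rw [e3]; exact hξ)
  rw [h3, hcoef] at h2
  have e : (fun n : ℤ => cf h n * Complex.exp (Complex.I * (Real.pi * n / 2) * ξ))
      = fun n : ℤ => cf h n • fourier n (ξ : AddCircle (4 : ℝ)) := by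
    funext n
    rw [fourier_coe_apply, smul_eq_mul]
    congr 2
    push_cast
    ring
  rw [e]
  exact h2

/-! ### From nonnegative coefficients to a measure -/

theorem posdef_of_series (α : ℝ) (γ : ℤ → ℝ) (hγ : ∀ n, 0 ≤ γ n) (hs : Summable γ)
    (hrep : ∀ ξ ∈ Icc (-1 : ℝ) 1,
      HasSum (fun n : ℤ => (γ n : ℂ) * Complex.exp (Complex.I * (Real.pi * n / 2) * ξ))
        ((1 - |ξ| ^ α : ℝ) : ℂ)) : PosDefOnInterval α := by
  let m : ℤ → Measure ℝ := fun n => ENNReal.ofReal (γ n) • Measure.dirac (Real.pi * n / 2)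
  have huniv : ∀ n, m n univ = ENNReal.ofReal (γ n) := by
    intro n
    simp [m]
  have hfin : IsFiniteMeasure (Measure.sum m) := by
    refine ⟨?_⟩
    rw [Measure.sum_apply _ MeasurableSet.univ]
    simp only [huniv]
    rw [← ENNReal.ofReal_tsum_of_nonneg hγ hs]
    exact ENNReal.ofReal_lt_top
  refine ⟨Measure.sum m, hfin, fun ξ hξ => ?_⟩
  have hcont : Continuous (fun x : ℝ => Complex.exp (Complex.I * ξ * x)) := by fun_prop
  have hint : Integrable (fun x : ℝ => Complex.exp (Complex.I * ξ * x)) (Measure.sum m) := by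
    refine Integrable.of_bound (C := 1) hcont.aestronglyMeasurable
      (Eventually.of_forall fun x => ?_)
    rw [show Complex.I * ξ * x = ((ξ * x : ℝ) : ℂ) * Complex.I by push_cast; ring]
    rw [Complex.norm_exp_ofReal_mul_I]
  rw [integral_sum_measure hint]
  refine HasSum.tsum_eq ?_
  have e : (fun n : ℤ => ∫ x, Complex.exp (Complex.I * ξ * x) ∂(m n))
      = fun n : ℤ => (γ n : ℂ) * Complex.exp (Complex.I * (Real.pi * n / 2) * ξ) := by
    funext n
    simp only [m]
    rw [integral_smul_measure, integral_dirac, ENNReal.toReal_ofReal (hγ n), Complex.real_smul]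
    congr 2
    push_cast
    ring
  rw [e]
  exact hrep ξ hξ

/-- upper bound for admissible exponents -/
theorem le_two_of_posdef {α : ℝ} (hα : 0 < α) (h : PosDefOnInterval α) : α ≤ 2 := by
  obtain ⟨μ, hfin, hμ⟩ := h
  have hre : ∀ ξ ∈ Icc (-1 : ℝ) 1, ∫ x, Real.cos (ξ * x) ∂μ = 1 - |ξ| ^ α := by
    intro ξ hξ
    have h1 := congrArg Complex.re (hμ ξ hξ)
    rw [Complex.ofReal_re] at h1
    rw [← h1]
    have hcont : Continuous (fun x : ℝ => Complex.exp (Complex.I * ξ * x)) := by fun_prop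
    have hint : Integrable (fun x : ℝ => Complex.exp (Complex.I * ξ * x)) μ := by
      refine Integrable.of_bound (C := 1) hcont.aestronglyMeasurable
        (Eventually.of_forall fun x => ?_)
      rw [show Complex.I * ξ * x = ((ξ * x : ℝ) : ℂ) * Complex.I by push_cast; ring]
      rw [Complex.norm_exp_ofReal_mul_I]
    have h2 := (Complex.reCLM.integral_comp_comm hint).symm
    rw [Complex.reCLM_apply] at h2
    rw [h2]
    refine integral_congr_ae (Eventually.of_forall fun x => ?_)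
    simp only [Complex.reCLM_apply]
    rw [show Complex.I * ξ * x = ((ξ * x : ℝ) : ℂ) * Complex.I by push_cast; ring,
      Complex.exp_ofReal_mul_I_re]
  have hcosint : ∀ ξ : ℝ, Integrable (fun x : ℝ => Real.cos (ξ * x)) μ := by
    intro ξ
    refine Integrable.of_bound (C := 1) (by fun_prop) (Eventually.of_forall fun x => ?_)
    rw [Real.norm_eq_abs]
    exact Real.abs_cos_le_one _
  have h0 := hre 0 (by norm_num)
  have h1 := hre 1 (by norm_num)
  have h2 := hre (1 / 2) (by norm_num)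
  simp only [zero_mul, Real.cos_zero, abs_zero, Real.zero_rpow hα.ne', sub_zero] at h0
  rw [abs_one, Real.one_rpow, sub_self] at h1
  rw [abs_of_pos (by norm_num : (0 : ℝ) < 1 / 2)] at h2
  have key : ∫ x, (1 - Real.cos (1 * x)) ∂μ ≤ ∫ x, 4 * (1 - Real.cos (1 / 2 * x)) ∂μ := by
    refine integral_mono ((integrable_const _).sub (hcosint 1))
      (((integrable_const _).sub (hcosint _)).const_mul 4) (fun x => ?_)
    simp only
    have e : Real.cos (1 * x) = 2 * Real.cos (1 / 2 * x) ^ 2 - 1 := by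
      rw [← Real.cos_two_mul]
      congr 1
      ring
    rw [e]
    nlinarith [Real.cos_le_one (1 / 2 * x), Real.neg_one_le_cos (1 / 2 * x)]
  rw [integral_const_mul, integral_sub (integrable_const _) (hcosint 1),
    integral_sub (integrable_const _) (hcosint _), h0, h1, h2] at key
  by_contra hlt
  push Not at hlt
  have h3 : ((1 : ℝ) / 2) ^ α < (1 / 2) ^ (2 : ℝ) :=
    Real.rpow_lt_rpow_of_exponent_gt (by norm_num) (by norm_num) hlt
  norm_num at h3
  norm_num at key
  linarith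

theorem bddAbove_set : BddAbove {α : ℝ | 0 < α ∧ PosDefOnInterval α} :=
  ⟨2, fun _ h => le_two_of_posdef h.1 h.2⟩

/-! ### The integrals `S` -/

/-- the integrand -/
noncomputable def fn (α t : ℝ) : ℝ := t ^ (α - 2) * Real.cos t

/-- the truncated cosine integrals -/
noncomputable def S (α : ℝ) (k : ℕ) : ℝ := ∫ t in (0 : ℝ)..((2 * k + 1) * Real.pi / 2), fn α t

theorem fn_intervalIntegrable {α : ℝ} (hα : 1 < α) (a b : ℝ) :
    IntervalIntegrable (fn α) volume a b := by
  unfold fn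
  exact (intervalIntegral.intervalIntegrable_rpow' (by linarith)).mul_continuousOn
    Real.continuous_cos.continuousOn

/-- the moduli of the successive pieces -/
noncomputable def bj (α : ℝ) (j : ℕ) : ℝ :=
  ∫ u in (-(Real.pi / 2))..(Real.pi / 2), (u + j * Real.pi) ^ (α - 2) * Real.cos u

theorem S_succ {α : ℝ} (hα : 1 < α) (k : ℕ) :
    S α (k + 1) = S α k + (-1) ^ (k + 1) * bj α (k + 1) := by
  unfold S bj
  rw [← intervalIntegral.integral_add_adjacent_intervals
    (fn_intervalIntegrable hα 0 ((2 * k + 1) * Real.pi / 2))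
    (fn_intervalIntegrable hα ((2 * k + 1) * Real.pi / 2) _)]
  congr 1
  rw [← intervalIntegral.integral_const_mul]
  have h := intervalIntegral.integral_comp_add_right (a := -(Real.pi / 2)) (b := Real.pi / 2)
    (fn α) ((k + 1 : ℕ) * Real.pi)
  have e1 : -(Real.pi / 2) + ((k + 1 : ℕ) : ℝ) * Real.pi = (2 * k + 1) * Real.pi / 2 := by
    push_cast; ring
  have e2 : Real.pi / 2 + ((k + 1 : ℕ) : ℝ) * Real.pi = (2 * ((k + 1 : ℕ) : ℝ) + 1) * Real.pi / 2 := by
    push_cast; ring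
  rw [e1, e2] at h
  rw [← h]
  refine intervalIntegral.integral_congr (fun u _ => ?_)
  unfold fn
  rw [Real.cos_add_nat_mul_pi]
  ring

theorem base_pos {u : ℝ} (hu : -(Real.pi / 2) ≤ u) {j : ℕ} (hj : 1 ≤ j) :
    0 < u + j * Real.pi := by
  have h1 : (1 : ℝ) ≤ j := by exact_mod_cast hj
  nlinarith [Real.pi_pos]

theorem bj_cont {α : ℝ} {j : ℕ} (hj : 1 ≤ j) :
    ContinuousOn (fun u => (u + j * Real.pi) ^ (α - 2) * Real.cos u)
      (uIcc (-(Real.pi / 2)) (Real.pi / 2)) := by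
  rw [uIcc_of_le (by linarith [Real.pi_pos])]
  refine ContinuousOn.mul (ContinuousOn.rpow_const (by fun_prop) (fun u hu => ?_))
    Real.continuous_cos.continuousOn
  exact Or.inl (base_pos hu.1 hj).ne'

theorem bj_nonneg {α : ℝ} {j : ℕ} (hj : 1 ≤ j) : 0 ≤ bj α j := by
  unfold bj
  refine intervalIntegral.integral_nonneg (by linarith [Real.pi_pos]) (fun u hu => ?_)
  exact mul_nonneg (Real.rpow_nonneg (base_pos hu.1 hj).le _)
    (Real.cos_nonneg_of_neg_pi_div_two_le_of_le hu.1 hu.2)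

theorem bj_lt {α : ℝ} (hα2 : α < 2) {j : ℕ} (hj : 1 ≤ j) : bj α (j + 1) < bj α j := by
  have hpi := Real.pi_pos
  rw [← sub_pos]
  unfold bj
  rw [← intervalIntegral.integral_sub (bj_cont hj).intervalIntegrable
    (bj_cont (by omega)).intervalIntegrable]
  refine intervalIntegral.intervalIntegral_pos_of_pos_on ?_ (fun u hu => ?_) (by linarith)
  · exact ((bj_cont hj).intervalIntegrable).sub (bj_cont (by omega)).intervalIntegrable
  · rw [← sub_mul]
    refine mul_pos ?_ (Real.cos_pos_of_mem_Ioo hu)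
    have h0 := base_pos hu.1.le hj
    rw [sub_pos]
    refine Real.rpow_lt_rpow_of_neg h0 ?_ (by linarith)
    push_cast
    linarith

theorem bj_anti {α : ℝ} (hα2 : α < 2) {j : ℕ} (hj : 1 ≤ j) : bj α (j + 1) ≤ bj α j :=
  (bj_lt hα2 hj).le

theorem S3_le {α : ℝ} (hα : 1 < α) (hα2 : α < 2) (k : ℕ) (hk : k ≠ 1) : S α 3 ≤ S α k := by
  have s1 := S_succ hα 0
  have s2 := S_succ hα 1
  have s3 := S_succ hα 2
  norm_num at s1 s2 s3
  have b12 := bj_anti (α := α) hα2 (le_refl 1)
  have b3 := bj_nonneg (α := α) (j := 3) (by norm_num)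
  have b2 := bj_nonneg (α := α) (j := 2) (by norm_num)
  have b1 := bj_nonneg (α := α) (j := 1) (by norm_num)
  norm_num at b12
  have odd : ∀ i : ℕ, S α 3 ≤ S α (2 * i + 3) := by
    intro i
    induction i with
    | zero => exact le_refl _
    | succ i ih =>
      have e1 := S_succ hα (2 * i + 3)
      have e2 := S_succ hα (2 * i + 4)
      have p1 : (-1 : ℝ) ^ (2 * i + 3 + 1) = 1 := by
        rw [show 2 * i + 3 + 1 = 2 * (i + 2) by ring, pow_mul]; norm_num
      have p2 : (-1 : ℝ) ^ (2 * i + 4 + 1) = -1 := by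
        rw [show 2 * i + 4 + 1 = 2 * (i + 2) + 1 by ring, pow_succ, pow_mul]; norm_num
      rw [p1] at e1
      rw [p2] at e2
      have e3 := bj_anti (α := α) hα2 (j := 2 * i + 4) (by omega)
      rw [show 2 * (i + 1) + 3 = 2 * i + 4 + 1 by ring, e2, show 2 * i + 4 = 2 * i + 3 + 1 by ring, e1]
      rw [show 2 * i + 4 + 1 = 2 * i + 3 + 1 + 1 by ring, show 2 * i + 4 = 2 * i + 3 + 1 by ring] at e3
      linarith
  rcases Nat.even_or_odd' k with ⟨i, hi | hi⟩
  · -- even
    rcases i with _ | _ | i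
    · subst hi
      norm_num
      linarith
    · subst hi
      norm_num
      linarith
    · have e1 := S_succ hα (2 * i + 3)
      have p1 : (-1 : ℝ) ^ (2 * i + 3 + 1) = 1 := by
        rw [show 2 * i + 3 + 1 = 2 * (i + 2) by ring, pow_mul]; norm_num
      rw [p1] at e1
      have hk' : k = 2 * i + 3 + 1 := by omega
      rw [hk', e1]
      have := odd i
      have := bj_nonneg (α := α) (j := 2 * i + 3 + 1) (by omega)
      linarith
  · rcases i with _ | i
    · omega
    · have hk' : k = 2 * i + 3 := by omega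
      rw [hk']
      exact odd i

theorem S3_gt {α : ℝ} (hα : 1 < α) (hα2 : α < 2) : S α 1 < S α 3 := by
  have s2 := S_succ hα 1
  have s3 := S_succ hα 2
  norm_num at s2 s3
  have b23 := bj_lt (α := α) hα2 (j := 2) (by norm_num)
  norm_num at b23
  linarith

theorem rho_eq (α : ℝ) : rho α = S α 1 := by
  unfold rho S fn
  norm_num
  refine intervalIntegral.integral_congr (fun t ht => ?_)
  rw [uIcc_of_le (by positivity)] at ht
  rw [show 2 - α = -(α - 2) by ring, Real.rpow_neg ht.1, div_eq_mul_inv, inv_inv, mul_comm]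

theorem S_continuousAt (k : ℕ) {α₀ : ℝ} (h1 : 1 < α₀) :
    ContinuousAt (fun α => S α k) α₀ := by
  unfold S
  obtain ⟨α₁, h2, h3⟩ := exists_between h1
  have hpi := Real.pi_pos
  refine intervalIntegral.continuousAt_of_dominated_interval
    (bound := fun t => t ^ (α₁ - 2) + t ^ (α₀ + 1 - 2)) ?_ ?_ ?_ ?_
  · refine Eventually.of_forall (fun α => ?_)
    unfold fn
    refine Measurable.aestronglyMeasurable ?_
    fun_prop
  · filter_upwards [Ioo_mem_nhds h3 (lt_add_one α₀)] with α hα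
    refine Eventually.of_forall (fun t ht => ?_)
    rw [uIoc_of_le (by positivity)] at ht
    unfold fn
    rw [norm_mul, Real.norm_eq_abs, Real.norm_eq_abs, abs_of_nonneg (Real.rpow_nonneg ht.1.le _)]
    have hc := Real.abs_cos_le_one t
    have hle : t ^ (α - 2) ≤ t ^ (α₁ - 2) + t ^ (α₀ + 1 - 2) := by
      rcases le_total t 1 with ht1 | ht1
      · have := Real.rpow_le_rpow_of_exponent_ge ht.1 ht1 (by linarith [hα.1] : α₁ - 2 ≤ α - 2)
        have := Real.rpow_nonneg ht.1.le (α₀ + 1 - 2)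
        linarith
      · have := Real.rpow_le_rpow_of_exponent_le ht1 (by linarith [hα.2] : α - 2 ≤ α₀ + 1 - 2)
        have := Real.rpow_nonneg ht.1.le (α₁ - 2)
        linarith
    calc t ^ (α - 2) * |Real.cos t| ≤ t ^ (α - 2) * 1 :=
          mul_le_mul_of_nonneg_left hc (Real.rpow_nonneg ht.1.le _)
      _ ≤ _ := by rw [mul_one]; exact hle
  · exact (intervalIntegral.intervalIntegrable_rpow' (by linarith)).add
      (intervalIntegral.intervalIntegrable_rpow' (by linarith))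
  · refine Eventually.of_forall (fun t ht => ?_)
    rw [uIoc_of_le (by positivity)] at ht
    unfold fn
    refine ContinuousAt.mul ?_ continuousAt_const
    exact (Real.continuousAt_const_rpow ht.1.ne').comp (by fun_prop)

/-! ### The cosine integrals of the two building blocks -/

/-- `1 - |u|^α` -/
noncomputable def tau (α u : ℝ) : ℝ := 1 - |u| ^ α

/-- the perturbation -/
noncomputable def GG (u : ℝ) : ℝ := 1 + Real.cos (3 * Real.pi * u)

/-- cosine integral -/
noncomputable def CC (k : ℝ → ℝ) (a : ℝ) : ℝ := ∫ u in (-1 : ℝ)..1, Real.cos (a * u) * k u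

theorem tau_cont {α : ℝ} (hα : 0 < α) : Continuous (tau α) := by
  unfold tau
  exact continuous_const.sub (continuous_abs.rpow_const (fun _ => Or.inr hα.le))

theorem GG_cont : Continuous GG := by unfold GG; fun_prop

theorem CC_neg (k : ℝ → ℝ) (a : ℝ) : CC k (-a) = CC k a := by
  unfold CC
  refine intervalIntegral.integral_congr (fun u _ => ?_)
  simp only [neg_mul, Real.cos_neg]

theorem exp_int (k : ℝ → ℝ) (hk : Continuous k) (heven : ∀ u, k (-u) = k u) (a : ℝ) :
    ∫ u in (-1 : ℝ)..1, Complex.exp (-(Complex.I * a * u)) * (k u : ℂ) = (CC k a : ℂ) := by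
  have h1 : ∀ u : ℝ, Complex.exp (-(Complex.I * a * u)) * (k u : ℂ)
      = ((Real.cos (a * u) * k u : ℝ) : ℂ) - Complex.I * ((Real.sin (a * u) * k u : ℝ) : ℂ) := by
    intro u
    rw [show -(Complex.I * a * u) = ((-(a * u) : ℝ) : ℂ) * Complex.I by push_cast; ring,
      Complex.exp_mul_I, ← Complex.ofReal_cos, ← Complex.ofReal_sin, Real.cos_neg, Real.sin_neg]
    push_cast
    ring
  simp only [h1]
  have i1 : IntervalIntegrable (fun u : ℝ => ((Real.cos (a * u) * k u : ℝ) : ℂ)) volume (-1) 1 := by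
    apply Continuous.intervalIntegrable; fun_prop
  have i2 : IntervalIntegrable (fun u : ℝ => Complex.I * ((Real.sin (a * u) * k u : ℝ) : ℂ))
      volume (-1) 1 := by
    apply Continuous.intervalIntegrable; fun_prop
  rw [intervalIntegral.integral_sub i1 i2, intervalIntegral.integral_const_mul,
    intervalIntegral.integral_ofReal, intervalIntegral.integral_ofReal]
  have h2 : ∫ u in (-1 : ℝ)..1, Real.sin (a * u) * k u = 0 := by
    have h3 := intervalIntegral.integral_comp_neg (a := (-1 : ℝ)) (b := 1)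
      (fun u => Real.sin (a * u) * k u)
    rw [neg_neg] at h3
    have h4 : ∫ x in (-1 : ℝ)..1, Real.sin (a * -x) * k (-x)
        = - ∫ x in (-1 : ℝ)..1, Real.sin (a * x) * k x := by
      rw [← intervalIntegral.integral_neg]
      refine intervalIntegral.integral_congr (fun u _ => ?_)
      simp only [mul_neg, Real.sin_neg, heven, neg_mul]
    rw [h4] at h3
    linarith
  rw [h2]
  simp [CC]

theorem CC_tau_half {α : ℝ} (hα : 0 < α) (a : ℝ) :
    CC (tau α) a = 2 * ∫ u in (0 : ℝ)..1, Real.cos (a * u) * (1 - u ^ α) := by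
  have hc : Continuous fun u => Real.cos (a * u) * tau α u := by
    have := tau_cont hα
    fun_prop
  unfold CC
  rw [← intervalIntegral.integral_add_adjacent_intervals (hc.intervalIntegrable (-1) 0)
    (hc.intervalIntegrable 0 1)]
  have h1 : ∫ u in (0 : ℝ)..1, Real.cos (a * u) * tau α u
      = ∫ u in (0 : ℝ)..1, Real.cos (a * u) * (1 - u ^ α) := by
    refine intervalIntegral.integral_congr (fun u hu => ?_)
    rw [uIcc_of_le (by norm_num)] at hu
    simp only [tau, abs_of_nonneg hu.1]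
  have h2 : ∫ u in (-1 : ℝ)..0, Real.cos (a * u) * tau α u
      = ∫ u in (0 : ℝ)..1, Real.cos (a * u) * tau α u := by
    have h3 := intervalIntegral.integral_comp_neg (a := (0 : ℝ)) (b := 1)
      (fun u => Real.cos (a * u) * tau α u)
    rw [neg_zero] at h3
    rw [← h3]
    refine intervalIntegral.integral_congr (fun u _ => ?_)
    simp only [mul_neg, Real.cos_neg, tau, abs_neg]
  rw [h2, h1]
  ring

theorem tau_int {α : ℝ} (h1 : 1 < α) {a : ℝ} (ha : 0 < a) (hcos : Real.cos a = 0) :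
    ∫ u in (0 : ℝ)..1, Real.cos (a * u) * (1 - u ^ α)
      = (α * (α - 1) / a ^ 2) * ∫ u in (0 : ℝ)..1, u ^ (α - 2) * Real.cos (a * u) := by
  have i1 : IntervalIntegrable (fun u : ℝ => u ^ (α - 2) * Real.cos (a * u)) volume 0 1 :=
    (intervalIntegral.intervalIntegrable_rpow' (by linarith)).mul_continuousOn
      (by fun_prop)
  have i2 : IntervalIntegrable (fun u : ℝ => Real.cos (a * u) * (1 - u ^ α)) volume 0 1 := by
    apply Continuous.intervalIntegrable
    have : Continuous fun u : ℝ => u ^ α := Real.continuous_rpow_const (by linarith)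
    fun_prop
  have key : ∫ u in (0 : ℝ)..1, (Real.cos (a * u) * (1 - u ^ α)
      - (α * (α - 1) / a ^ 2) * (u ^ (α - 2) * Real.cos (a * u))) = 0 := by
    have h := intervalIntegral.integral_eq_sub_of_hasDerivAt_of_le
      (f := fun u : ℝ => (1 - u ^ α) * (Real.sin (a * u) / a)
        - (α / a ^ 2) * (u ^ (α - 1) * Real.cos (a * u)))
      (f' := fun u : ℝ => Real.cos (a * u) * (1 - u ^ α)
        - (α * (α - 1) / a ^ 2) * (u ^ (α - 2) * Real.cos (a * u)))
      (a := 0) (b := 1) (by norm_num) ?_ ?_ (i2.sub (i1.const_mul _))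
    · rw [h]
      simp [Real.zero_rpow (by linarith : α ≠ 0), Real.zero_rpow (by linarith : α - 1 ≠ 0), hcos]
    · apply Continuous.continuousOn
      have c1 : Continuous fun u : ℝ => u ^ α := Real.continuous_rpow_const (by linarith)
      have c2 : Continuous fun u : ℝ => u ^ (α - 1) := Real.continuous_rpow_const (by linarith)
      fun_prop
    · intro u hu
      have d1 : HasDerivAt (fun u : ℝ => u ^ α) (α * u ^ (α - 1)) u :=
        Real.hasDerivAt_rpow_const (Or.inl hu.1.ne')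
      have d2 : HasDerivAt (fun u : ℝ => u ^ (α - 1)) ((α - 1) * u ^ (α - 1 - 1)) u :=
        Real.hasDerivAt_rpow_const (Or.inl hu.1.ne')
      have d3 : HasDerivAt (fun u : ℝ => Real.sin (a * u)) (Real.cos (a * u) * a) u := by
        simpa using ((hasDerivAt_id u).const_mul a).sin
      have d4 : HasDerivAt (fun u : ℝ => Real.cos (a * u)) (-Real.sin (a * u) * a) u := by
        simpa using ((hasDerivAt_id u).const_mul a).cos
      have d := ((d1.const_sub 1).mul (d3.div_const a)).sub ((d2.mul d4).const_mul (α / a ^ 2))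
      refine d.congr_deriv ?_
      rw [show α - 1 - 1 = α - 2 by ring]
      field_simp
      ring
  rw [intervalIntegral.integral_sub i2 (i1.const_mul _), intervalIntegral.integral_const_mul] at key
  linarith

/-- the frequencies -/
noncomputable def fr (k : ℕ) : ℝ := (2 * k + 1) * Real.pi / 2

theorem fr_pos (k : ℕ) : 0 < fr k := by unfold fr; positivity

theorem one_lt_fr (k : ℕ) : 1 < fr k := by
  unfold fr
  have := Real.pi_gt_three
  have : (0 : ℝ) ≤ k := Nat.cast_nonneg k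
  nlinarith

theorem cos_fr (k : ℕ) : Real.cos (fr k) = 0 := by
  unfold fr
  rw [Real.cos_eq_zero_iff]
  exact ⟨k, by push_cast; ring⟩

theorem sin_fr (k : ℕ) : Real.sin (fr k) = (-1) ^ k := by
  unfold fr
  rw [show (2 * (k : ℝ) + 1) * Real.pi / 2 = Real.pi / 2 + k * Real.pi by ring,
    Real.sin_add_nat_mul_pi, Real.sin_pi_div_two, mul_one]

theorem scale_int {α : ℝ} (k : ℕ) :
    S α k = (fr k) ^ (α - 1) * ∫ u in (0 : ℝ)..1, u ^ (α - 2) * Real.cos (fr k * u) := by
  have ha := fr_pos k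
  have h := intervalIntegral.integral_comp_mul_left (a := 0) (b := 1) (fn α) ha.ne'
  rw [mul_zero, mul_one] at h
  have h2 : S α k = fr k * ∫ x in (0 : ℝ)..1, fn α (fr k * x) := by
    rw [h, smul_eq_mul, ← mul_assoc, mul_inv_cancel₀ ha.ne', one_mul]
    rfl
  rw [h2, ← intervalIntegral.integral_const_mul, ← intervalIntegral.integral_const_mul]
  refine intervalIntegral.integral_congr (fun u hu => ?_)
  rw [uIcc_of_le (by norm_num)] at hu
  unfold fn
  rw [Real.mul_rpow ha.le hu.1, show α - 1 = 1 + (α - 2) by ring, Real.rpow_add ha, Real.rpow_one]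
  ring

theorem CC_tau {α : ℝ} (h1 : 1 < α) (k : ℕ) :
    CC (tau α) (fr k) = 2 * (α * (α - 1)) * (fr k) ^ (-1 - α) * S α k := by
  have ha := fr_pos k
  rw [CC_tau_half (by linarith), tau_int h1 ha (cos_fr k), scale_int]
  have e : (fr k) ^ (-1 - α) * (fr k) ^ (α - 1) = 1 / (fr k) ^ 2 := by
    rw [← Real.rpow_add ha, show -1 - α + (α - 1) = -(2 : ℝ) by ring, Real.rpow_neg ha.le]
    norm_num
  calc 2 * (α * (α - 1) / (fr k) ^ 2 * ∫ u in (0 : ℝ)..1, u ^ (α - 2) * Real.cos (fr k * u))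
      = 2 * (α * (α - 1)) * (1 / (fr k) ^ 2) *
          ∫ u in (0 : ℝ)..1, u ^ (α - 2) * Real.cos (fr k * u) := by ring
    _ = _ := by rw [← e]; ring

theorem CC_tau_abs {α : ℝ} (h1 : 1 < α) (k : ℕ) :
    |CC (tau α) (fr k)| ≤ 2 * α / (fr k) ^ 2 := by
  have ha := fr_pos k
  rw [CC_tau_half (by linarith), tau_int h1 ha (cos_fr k)]
  have hb : |∫ u in (0 : ℝ)..1, u ^ (α - 2) * Real.cos (fr k * u)| ≤ 1 / (α - 1) := by
    have h := intervalIntegral.norm_integral_le_of_norm_le (a := 0) (b := 1) (μ := volume)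
      (f := fun u : ℝ => u ^ (α - 2) * Real.cos (fr k * u)) (g := fun u : ℝ => u ^ (α - 2))
      (by norm_num) (Eventually.of_forall fun u hu => ?_)
      (intervalIntegral.intervalIntegrable_rpow' (by linarith))
    · rw [Real.norm_eq_abs] at h
      refine h.trans (le_of_eq ?_)
      rw [integral_rpow (Or.inl (by linarith))]
      rw [show α - 2 + 1 = α - 1 by ring, Real.one_rpow, Real.zero_rpow (by linarith)]
      ring
    · rw [norm_mul, Real.norm_eq_abs, Real.norm_eq_abs, abs_of_nonneg (Real.rpow_nonneg hu.1.le _)]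
      exact mul_le_of_le_one_right (Real.rpow_nonneg hu.1.le _) (Real.abs_cos_le_one _)
  have hα1 : 0 < α - 1 := by linarith
  rw [abs_mul, abs_mul, abs_of_pos (by norm_num : (0 : ℝ) < 2),
    abs_of_pos (by positivity : 0 < α * (α - 1) / (fr k) ^ 2)]
  calc 2 * (α * (α - 1) / (fr k) ^ 2 * |∫ u in (0 : ℝ)..1, u ^ (α - 2) * Real.cos (fr k * u)|)
      ≤ 2 * (α * (α - 1) / (fr k) ^ 2 * (1 / (α - 1))) := by gcongr
    _ = 2 * α / (fr k) ^ 2 := by field_simp

/-- `∫_{-1}^1 cos(bu) du` -/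
theorem cos_int (b : ℝ) (hb : b ≠ 0) : ∫ u in (-1 : ℝ)..1, Real.cos (b * u) = 2 * Real.sin b / b := by
  rw [intervalIntegral.integral_comp_mul_left _ hb, integral_cos]
  simp
  ring

theorem CC_GG (a : ℝ) : CC GG a = (∫ u in (-1 : ℝ)..1, Real.cos (a * u))
    + (1 / 2) * (∫ u in (-1 : ℝ)..1, Real.cos ((a - 3 * Real.pi) * u))
    + (1 / 2) * (∫ u in (-1 : ℝ)..1, Real.cos ((a + 3 * Real.pi) * u)) := by
  have i : ∀ b : ℝ, IntervalIntegrable (fun u : ℝ => Real.cos (b * u)) volume (-1) 1 := by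
    intro b
    apply Continuous.intervalIntegrable; fun_prop
  unfold CC
  rw [← intervalIntegral.integral_const_mul, ← intervalIntegral.integral_const_mul,
    ← intervalIntegral.integral_add (i _) ((i _).const_mul _),
    ← intervalIntegral.integral_add ((i _).add ((i _).const_mul _)) ((i _).const_mul _)]
  refine intervalIntegral.integral_congr (fun u _ => ?_)
  unfold GG
  rw [show (a - 3 * Real.pi) * u = a * u - 3 * Real.pi * u by ring,
    show (a + 3 * Real.pi) * u = a * u + 3 * Real.pi * u by ring, Real.cos_sub, Real.cos_add]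
  ring

theorem fr_ne (k : ℕ) : fr k ≠ 3 * Real.pi := by
  unfold fr
  intro h
  have hpi := Real.pi_pos
  have h2 : (2 * (k : ℝ) + 1) = 6 := by
    have : (2 * (k : ℝ) + 1 - 6) * Real.pi = 0 := by linarith
    rcases mul_eq_zero.mp this with h | h
    · linarith
    · exact absurd h hpi.ne'
  have h3 : 2 * k + 1 = 6 := by exact_mod_cast h2
  omega

theorem CC_GG_fr (k : ℕ) : CC GG (fr k)
    = -(18 * Real.pi ^ 2 * (-1) ^ k / (fr k * (fr k ^ 2 - 9 * Real.pi ^ 2))) := by
  have ha := fr_pos k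
  have hpi := Real.pi_pos
  have n1 : fr k - 3 * Real.pi ≠ 0 := sub_ne_zero.mpr (fr_ne k)
  have n2 : fr k + 3 * Real.pi ≠ 0 := by positivity
  rw [CC_GG, cos_int _ ha.ne', cos_int _ n1, cos_int _ n2]
  have s1 : Real.sin (fr k - 3 * Real.pi) = -((-1) ^ k) := by
    rw [show fr k - 3 * Real.pi = fr k - ((3 : ℕ) : ℝ) * Real.pi by push_cast; ring,
      Real.sin_sub_nat_mul_pi, sin_fr]
    ring
  have s2 : Real.sin (fr k + 3 * Real.pi) = -((-1) ^ k) := by
    rw [show fr k + 3 * Real.pi = fr k + ((3 : ℕ) : ℝ) * Real.pi by push_cast; ring,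
      Real.sin_add_nat_mul_pi, sin_fr]
    ring
  rw [s1, s2, sin_fr]
  have n3 : fr k ^ 2 - 9 * Real.pi ^ 2 ≠ 0 := by
    rw [show fr k ^ 2 - 9 * Real.pi ^ 2 = (fr k - 3 * Real.pi) * (fr k + 3 * Real.pi) by ring]
    exact mul_ne_zero n1 n2
  have n4 : (fr k - 3 * Real.pi) * (fr k + 3 * Real.pi) = fr k ^ 2 - 9 * Real.pi ^ 2 := by ring
  have e : 1 / 2 * (2 * -(-1) ^ k / (fr k - 3 * Real.pi))
      + 1 / 2 * (2 * -(-1) ^ k / (fr k + 3 * Real.pi))
      = -((-1) ^ k * (2 * fr k) / (fr k ^ 2 - 9 * Real.pi ^ 2)) := by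
    rw [← n4]
    field_simp
    ring
  rw [add_assoc, e]
  field_simp
  ring

theorem gap (k : ℕ) : fr k ^ 2 / 4 ≤ |fr k ^ 2 - 9 * Real.pi ^ 2| := by
  have hpi := Real.pi_pos
  have hfr : fr k ^ 2 = ((2 * k + 1 : ℕ) : ℝ) ^ 2 * (Real.pi ^ 2 / 4) := by
    unfold fr; push_cast; ring
  rw [hfr, show ((2 * k + 1 : ℕ) : ℝ) ^ 2 * (Real.pi ^ 2 / 4) - 9 * Real.pi ^ 2
    = (((2 * k + 1 : ℕ) : ℝ) ^ 2 - 36) * (Real.pi ^ 2 / 4) by ring, abs_mul,
    abs_of_pos (by positivity : 0 < Real.pi ^ 2 / 4)]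
  rw [show ((2 * k + 1 : ℕ) : ℝ) ^ 2 * (Real.pi ^ 2 / 4) / 4
    = (((2 * k + 1 : ℕ) : ℝ) ^ 2 / 4) * (Real.pi ^ 2 / 4) by ring]
  refine mul_le_mul_of_nonneg_right ?_ (by positivity)
  rcases Nat.lt_or_ge k 3 with hk | hk
  · interval_cases k <;> norm_num
  · have h7 : (7 : ℝ) ≤ ((2 * k + 1 : ℕ) : ℝ) := by exact_mod_cast (by omega : 7 ≤ 2 * k + 1)
    rw [abs_of_nonneg (by nlinarith)]
    nlinarith

theorem CC_GG_abs (k : ℕ) : |CC GG (fr k)| ≤ 72 * Real.pi ^ 2 / fr k ^ 3 := by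
  have ha := fr_pos k
  have hpi := Real.pi_pos
  have hg := gap k
  have hgp : 0 < |fr k ^ 2 - 9 * Real.pi ^ 2| := lt_of_lt_of_le (by positivity) hg
  rw [CC_GG_fr, abs_neg, abs_div, abs_mul (18 * Real.pi ^ 2), abs_neg_one_pow, mul_one,
    abs_of_pos (by positivity : 0 < 18 * Real.pi ^ 2), abs_mul (fr k), abs_of_pos ha]
  rw [div_le_div_iff₀ (by positivity) (by positivity)]
  calc 18 * Real.pi ^ 2 * fr k ^ 3 = 72 * Real.pi ^ 2 * (fr k * (fr k ^ 2 / 4)) := by ring
    _ ≤ 72 * Real.pi ^ 2 * (fr k * |fr k ^ 2 - 9 * Real.pi ^ 2|) := by gcongr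

theorem CC_GG_one : CC GG (fr 1) = -(16 / (9 * Real.pi)) := by
  rw [CC_GG_fr]
  have hpi := Real.pi_pos
  unfold fr
  norm_num
  field_simp
  norm_num

theorem cos_int_pi (m : ℤ) : 0 ≤ ∫ u in (-1 : ℝ)..1, Real.cos (m * Real.pi * u) := by
  by_cases hm : m = 0
  · subst hm; simp
  · rw [cos_int _ (mul_ne_zero (by exact_mod_cast hm) Real.pi_pos.ne'), Real.sin_int_mul_pi]
    simp

theorem cos_int_pi_zero (m : ℤ) (hm : m ≠ 0) :
    ∫ u in (-1 : ℝ)..1, Real.cos (m * Real.pi * u) = 0 := by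
  rw [cos_int _ (mul_ne_zero (by exact_mod_cast hm) Real.pi_pos.ne'), Real.sin_int_mul_pi]
  simp

theorem CC_GG_even (l : ℤ) : 0 ≤ CC GG (l * Real.pi) := by
  rw [CC_GG]
  have e1 : (l : ℝ) * Real.pi - 3 * Real.pi = ((l - 3 : ℤ) : ℝ) * Real.pi := by push_cast; ring
  have e2 : (l : ℝ) * Real.pi + 3 * Real.pi = ((l + 3 : ℤ) : ℝ) * Real.pi := by push_cast; ring
  rw [e1, e2]
  have := cos_int_pi l
  have := cos_int_pi (l - 3)
  have := cos_int_pi (l + 3)
  positivity

theorem CC_GG_even_zero (l : ℤ) (h0 : l ≠ 0) (h1 : l ≠ 3) (h2 : l ≠ -3) :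
    CC GG (l * Real.pi) = 0 := by
  rw [CC_GG]
  have e1 : (l : ℝ) * Real.pi - 3 * Real.pi = ((l - 3 : ℤ) : ℝ) * Real.pi := by push_cast; ring
  have e2 : (l : ℝ) * Real.pi + 3 * Real.pi = ((l + 3 : ℤ) : ℝ) * Real.pi := by push_cast; ring
  rw [e1, e2, cos_int_pi_zero l h0, cos_int_pi_zero (l - 3) (by omega),
    cos_int_pi_zero (l + 3) (by omega)]
  ring

/-! ### The extension -/

/-- the function on `[-1,3]` -/
noncomputable def hh (α ε ξ : ℝ) : ℝ :=
  if ξ ≤ 1 then tau α ξ else -tau α (ξ - 2) + ε * GG (ξ - 2)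

theorem tau_one (α : ℝ) : tau α 1 = 0 := by simp [tau]
theorem tau_neg_one (α : ℝ) : tau α (-1) = 0 := by simp [tau]
theorem GG_neg_one : GG (-1) = 0 := by
  unfold GG
  rw [show 3 * Real.pi * (-1) = -(((1 : ℕ) : ℝ) * (2 * Real.pi) + Real.pi) by push_cast; ring,
    Real.cos_neg, Real.cos_nat_mul_two_pi_add_pi]
  norm_num
theorem GG_one : GG 1 = 0 := by
  unfold GG
  rw [show 3 * Real.pi * 1 = (((1 : ℕ) : ℝ) * (2 * Real.pi) + Real.pi) by push_cast; ring,
    Real.cos_nat_mul_two_pi_add_pi]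
  norm_num

theorem hh_cont {α : ℝ} (hα : 0 < α) (ε : ℝ) : Continuous (hh α ε) := by
  unfold hh
  have h1 := tau_cont hα
  have h2 := GG_cont
  refine Continuous.if_le (by fun_prop) (by fun_prop) continuous_id continuous_const (fun ξ hξ => ?_)
  have hξ' : ξ = 1 := hξ
  rw [hξ', show (1 : ℝ) - 2 = -1 by norm_num, tau_one, tau_neg_one, GG_neg_one]
  ring

theorem hh_left (α ε : ℝ) : hh α ε (-1) = 0 := by
  unfold hh
  rw [if_pos (by norm_num), tau_neg_one]

theorem hh_right (α ε : ℝ) : hh α ε 3 = 0 := by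
  unfold hh
  rw [if_neg (by norm_num), show (3 : ℝ) - 2 = 1 by norm_num, tau_one, GG_one]
  ring

/-- the coefficients -/
noncomputable def gam (α ε : ℝ) (n : ℤ) : ℝ :=
  (1 / 4) * (CC (tau α) (Real.pi * n / 2)
    + (-1 : ℝ) ^ n * (-CC (tau α) (Real.pi * n / 2) + ε * CC GG (Real.pi * n / 2)))

theorem cf_hh {α : ℝ} (hα : 0 < α) (ε : ℝ) (n : ℤ) :
    cf (fun ξ => (hh α ε ξ : ℂ)) n = (gam α ε n : ℂ) := by
  have hc := hh_cont hα ε
  have ht := tau_cont hα
  have hg := GG_cont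
  have hint : ∀ a b : ℝ, IntervalIntegrable
      (fun x : ℝ => Complex.exp (-(Complex.I * (Real.pi * n / 2) * x)) * (hh α ε x : ℂ))
      volume a b := by
    intro a b
    apply Continuous.intervalIntegrable; fun_prop
  unfold cf
  rw [← intervalIntegral.integral_add_adjacent_intervals (hint (-1) 1) (hint 1 3)]
  have e1 : ∫ x in (-1 : ℝ)..1, Complex.exp (-(Complex.I * (Real.pi * n / 2) * x)) * (hh α ε x : ℂ)
      = (CC (tau α) (Real.pi * n / 2) : ℂ) := by
    rw [← exp_int (tau α) ht (fun u => by simp [tau])]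
    refine intervalIntegral.integral_congr (fun x hx => ?_)
    rw [uIcc_of_le (by norm_num)] at hx
    simp only [hh, if_pos hx.2]
    push_cast
    rfl
  have e2 : ∫ x in (1 : ℝ)..3, Complex.exp (-(Complex.I * (Real.pi * n / 2) * x)) * (hh α ε x : ℂ)
      = ((-1 : ℝ) ^ n * (-CC (tau α) (Real.pi * n / 2) + ε * CC GG (Real.pi * n / 2)) : ℝ) := by
    have h := intervalIntegral.integral_comp_add_right (a := (-1 : ℝ)) (b := 1)
      (fun x : ℝ => Complex.exp (-(Complex.I * (Real.pi * n / 2) * x)) * (hh α ε x : ℂ)) 2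
    rw [show (-1 : ℝ) + 2 = 1 by norm_num, show (1 : ℝ) + 2 = 3 by norm_num] at h
    rw [← h]
    have hneg : Complex.exp (-(Complex.I * (Real.pi * n))) = (((-1 : ℝ) ^ n : ℝ) : ℂ) := by
      rw [show -(Complex.I * (Real.pi * n)) = (n : ℂ) * (-(Real.pi * Complex.I)) by ring,
        Complex.exp_int_mul, Complex.exp_neg, Complex.exp_pi_mul_I]
      push_cast
      norm_num
    have hstep : ∫ x in (-1 : ℝ)..1, Complex.exp (-(Complex.I * (Real.pi * n / 2) * ((x + 2 : ℝ) : ℂ)))
        * (hh α ε (x + 2) : ℂ) = ∫ x in (-1 : ℝ)..1, (((-1 : ℝ) ^ n : ℝ) : ℂ) *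
        (-(Complex.exp (-(Complex.I * ((Real.pi * n / 2 : ℝ) : ℂ) * x)) * (tau α x : ℂ))
          + (ε : ℂ) * (Complex.exp (-(Complex.I * ((Real.pi * n / 2 : ℝ) : ℂ) * x)) * (GG x : ℂ))) := by
      refine intervalIntegral.integral_congr (fun x hx => ?_)
      rw [uIcc_of_le (by norm_num)] at hx
      have hv : hh α ε (x + 2) = -tau α x + ε * GG x := by
        unfold hh
        rcases eq_or_lt_of_le hx.1 with h | h
        · rw [← h, if_pos (by norm_num), show (-1 : ℝ) + 2 = 1 by norm_num, tau_one, tau_neg_one,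
            GG_neg_one]
          ring
        · rw [if_neg (by linarith), add_sub_cancel_right]
      simp only [hv]
      rw [show -(Complex.I * (Real.pi * n / 2) * ((x + 2 : ℝ) : ℂ))
        = -(Complex.I * (Real.pi * n)) + -(Complex.I * ((Real.pi * n / 2 : ℝ) : ℂ) * x) by
          push_cast; ring, Complex.exp_add, hneg]
      push_cast
      ring
    rw [hstep, intervalIntegral.integral_const_mul, intervalIntegral.integral_add,
      intervalIntegral.integral_neg, intervalIntegral.integral_const_mul,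
      exp_int (tau α) ht (fun u => by simp [tau]), exp_int GG hg (fun u => by simp [GG])]
    · push_cast
      ring
    · apply Continuous.intervalIntegrable; fun_prop
    · apply Continuous.intervalIntegrable; fun_prop
  rw [e1, e2]
  unfold gam
  push_cast
  ring

theorem gam_even (α ε : ℝ) (l : ℤ) : gam α ε (l + l) = (ε / 4) * CC GG (l * Real.pi) := by
  unfold gam
  have h : (-1 : ℝ) ^ (l + l) = 1 := Even.neg_one_zpow ⟨l, rfl⟩
  rw [h]
  have e : Real.pi * ((l + l : ℤ) : ℝ) / 2 = l * Real.pi := by push_cast; ring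
  rw [e]
  ring

theorem gam_odd (α ε : ℝ) (k : ℕ) : gam α ε (2 * k + 1)
    = (1 / 2) * CC (tau α) (fr k) - (ε / 4) * CC GG (fr k) := by
  unfold gam
  have h : (-1 : ℝ) ^ (2 * (k : ℤ) + 1) = -1 := Odd.neg_one_zpow ⟨k, rfl⟩
  rw [h]
  have e : Real.pi * ((2 * (k : ℤ) + 1 : ℤ) : ℝ) / 2 = fr k := by unfold fr; push_cast; ring
  rw [e]
  ring

theorem gam_neg (α ε : ℝ) (n : ℤ) : gam α ε (-n) = gam α ε n := by
  unfold gam
  have e : Real.pi * ((-n : ℤ) : ℝ) / 2 = -(Real.pi * n / 2) := by push_cast; ring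
  have e2 : (-1 : ℝ) ^ (-n) = (-1 : ℝ) ^ n := by
    rw [zpow_neg, ← inv_zpow]
    norm_num
  rw [e, CC_neg, CC_neg, e2]

theorem int_cases (n : ℤ) : (∃ l : ℤ, n = l + l) ∨ (∃ k : ℕ, n = 2 * k + 1)
    ∨ ∃ k : ℕ, n = -(2 * k + 1) := by
  rcases Int.even_or_odd n with ⟨l, hl⟩ | ⟨l, hl⟩
  · exact Or.inl ⟨l, hl⟩
  · right
    rcases le_total 0 l with h | h
    · left
      exact ⟨l.toNat, by omega⟩
    · by_cases h0 : l = 0
      · left
        exact ⟨0, by simp [hl, h0]⟩
      · right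
        exact ⟨(-l - 1).toNat, by omega⟩

theorem gam_nonneg {α ε : ℝ} (h1 : 1 < α) (h2 : α < 2) (hε : 0 ≤ ε)
    (hS : 18 * Real.pi ^ 2 * ε ≤ α * (α - 1) * S α 3)
    (hρ : 2 * |S α 1| ≤ 4 * ε / (9 * Real.pi)) (n : ℤ) : 0 ≤ gam α ε n := by
  have hpi := Real.pi_pos
  have hα : 0 < α * (α - 1) := mul_pos (by linarith) (by linarith)
  have hodd : ∀ k : ℕ, 0 ≤ gam α ε (2 * k + 1) := by
    intro k
    have ha := fr_pos k
    have ha1 := one_lt_fr k
    rw [gam_odd, CC_tau h1]
    by_cases hk : k = 1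
    · subst hk
      rw [CC_GG_one]
      have hpow : (fr 1) ^ (-1 - α) ≤ 1 :=
        Real.rpow_le_one_of_one_le_of_nonpos ha1.le (by linarith)
      have hpow0 : 0 ≤ (fr 1) ^ (-1 - α) := Real.rpow_nonneg ha.le _
      have hα2 : α * (α - 1) ≤ 2 := by nlinarith
      have hb : |1 / 2 * (2 * (α * (α - 1)) * fr 1 ^ (-1 - α) * S α 1)| ≤ 2 * |S α 1| := by
        rw [show 1 / 2 * (2 * (α * (α - 1)) * fr 1 ^ (-1 - α) * S α 1)
          = (α * (α - 1)) * fr 1 ^ (-1 - α) * S α 1 by ring, abs_mul, abs_mul,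
          abs_of_pos hα, abs_of_nonneg hpow0]
        refine mul_le_mul_of_nonneg_right ?_ (abs_nonneg _)
        calc α * (α - 1) * fr 1 ^ (-1 - α) ≤ 2 * 1 := mul_le_mul hα2 hpow hpow0 (by norm_num)
          _ = 2 := by norm_num
      have := (abs_le.mp hb).1
      have e : ε / 4 * -(16 / (9 * Real.pi)) = -(4 * ε / (9 * Real.pi)) := by
        field_simp
        ring
      rw [e]
      linarith
    · have hS3 := S3_le h1 h2 k hk
      have hS0 : 0 ≤ S α 3 := by
        have : 0 ≤ α * (α - 1) * S α 3 := le_trans (by positivity) hS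
        exact (mul_nonneg_iff_of_pos_left hα).mp this
      have hb := CC_GG_abs k
      have hb2 := (abs_le.mp hb).2
      have hp : (fr k) ^ (-(3 : ℝ)) ≤ (fr k) ^ (-1 - α) :=
        Real.rpow_le_rpow_of_exponent_le ha1.le (by linarith)
      have hp3 : (fr k) ^ (-(3 : ℝ)) = 1 / fr k ^ 3 := by
        rw [Real.rpow_neg ha.le, one_div]
        norm_num
      rw [hp3] at hp
      have l1 : (α * (α - 1) * S α 3) * (1 / fr k ^ 3)
          ≤ 1 / 2 * (2 * (α * (α - 1)) * fr k ^ (-1 - α) * S α k) := by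
        calc (α * (α - 1) * S α 3) * (1 / fr k ^ 3)
            ≤ (α * (α - 1) * S α k) * fr k ^ (-1 - α) := by
              refine mul_le_mul ?_ hp (by positivity) ?_
              · exact mul_le_mul_of_nonneg_left hS3 hα.le
              · exact mul_nonneg hα.le (hS0.trans hS3)
          _ = _ := by ring
      have l2 : ε / 4 * CC GG (fr k) ≤ (18 * Real.pi ^ 2 * ε) * (1 / fr k ^ 3) := by
        calc ε / 4 * CC GG (fr k) ≤ ε / 4 * (72 * Real.pi ^ 2 / fr k ^ 3) := by gcongr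
          _ = _ := by ring
      have l3 : (18 * Real.pi ^ 2 * ε) * (1 / fr k ^ 3) ≤ (α * (α - 1) * S α 3) * (1 / fr k ^ 3) :=
        mul_le_mul_of_nonneg_right hS (by positivity)
      linarith
  rcases int_cases n with ⟨l, rfl⟩ | ⟨k, rfl⟩ | ⟨k, rfl⟩
  · rw [gam_even]
    exact mul_nonneg (by linarith) (CC_GG_even l)
  · exact hodd k
  · rw [gam_neg]
    exact hodd k

theorem gam_summable {α ε : ℝ} (h1 : 1 < α) (hε : 0 ≤ ε) : Summable (gam α ε) := by
  have hpi := Real.pi_pos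
  set M : ℝ := 4 * (α + 18 * Real.pi ^ 2 * ε) with hM
  have hs : Summable fun n : ℤ => M * (1 / (n : ℝ) ^ 2) :=
    (Real.summable_one_div_int_pow.mpr (by norm_num)).mul_left M
  refine Summable.of_norm_bounded_eventually hs ?_
  have hodd : ∀ k : ℕ, |gam α ε (2 * k + 1)| ≤ M * (1 / ((2 * k + 1 : ℕ) : ℝ) ^ 2) := by
    intro k
    have ha := fr_pos k
    have ha1 := one_lt_fr k
    rw [gam_odd]
    have b1 := CC_tau_abs h1 k
    have b2 := CC_GG_abs k
    have b3 : 72 * Real.pi ^ 2 / fr k ^ 3 ≤ 72 * Real.pi ^ 2 / fr k ^ 2 := by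
      gcongr 72 * Real.pi ^ 2 / ?_
      exact pow_le_pow_right₀ ha1.le (by norm_num)
    have hfr : ((2 * k + 1 : ℕ) : ℝ) ^ 2 ≤ fr k ^ 2 := by
      have : ((2 * k + 1 : ℕ) : ℝ) ≤ fr k := by
        unfold fr
        have := Real.pi_gt_three
        push_cast
        have : (0 : ℝ) ≤ k := Nat.cast_nonneg k
        nlinarith
      gcongr
    calc |1 / 2 * CC (tau α) (fr k) - ε / 4 * CC GG (fr k)|
        ≤ |1 / 2 * CC (tau α) (fr k)| + |ε / 4 * CC GG (fr k)| := abs_sub _ _
      _ = 1 / 2 * |CC (tau α) (fr k)| + ε / 4 * |CC GG (fr k)| := by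
          rw [abs_mul, abs_mul, abs_of_pos (by norm_num : (0 : ℝ) < 1 / 2),
            abs_of_nonneg (by linarith : 0 ≤ ε / 4)]
      _ ≤ 1 / 2 * (2 * α / fr k ^ 2) + ε / 4 * (72 * Real.pi ^ 2 / fr k ^ 2) := by
          gcongr
          exact b2.trans b3
      _ = (α + 18 * Real.pi ^ 2 * ε) * (1 / fr k ^ 2) := by ring
      _ ≤ (α + 18 * Real.pi ^ 2 * ε) * (1 / ((2 * k + 1 : ℕ) : ℝ) ^ 2) := by
          gcongr
      _ ≤ M * (1 / ((2 * k + 1 : ℕ) : ℝ) ^ 2) := by
          rw [hM]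
          have : 0 ≤ (α + 18 * Real.pi ^ 2 * ε) := by positivity
          gcongr
          linarith
  have hfin : ({0, 6, -6} : Set ℤ).Finite := by simp
  filter_upwards [hfin.compl_mem_cofinite] with n hn
  have hn' : n ≠ 0 ∧ n ≠ 6 ∧ n ≠ -6 := by simpa using hn
  rw [Real.norm_eq_abs]
  rcases int_cases n with ⟨l, rfl⟩ | ⟨k, rfl⟩ | ⟨k, rfl⟩
  · rw [gam_even, CC_GG_even_zero l (by omega) (by omega) (by omega), mul_zero, abs_zero]
    positivity
  · refine (hodd k).trans (le_of_eq ?_)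
    push_cast
    ring
  · rw [gam_neg]
    refine (hodd k).trans (le_of_eq ?_)
    push_cast
    ring

theorem posdef_near {α ε : ℝ} (h1 : 1 < α) (h2 : α < 2) (hε : 0 ≤ ε)
    (hS : 18 * Real.pi ^ 2 * ε ≤ α * (α - 1) * S α 3)
    (hρ : 2 * |S α 1| ≤ 4 * ε / (9 * Real.pi)) : PosDefOnInterval α := by
  have hα : 0 < α := by linarith
  have hs := gam_summable h1 hε
  refine posdef_of_series α (gam α ε) (gam_nonneg h1 h2 hε hS hρ) hs (fun ξ hξ => ?_)
  have hcf : cf (fun ξ => (hh α ε ξ : ℂ)) = fun n => (gam α ε n : ℂ) := funext (cf_hh hα ε)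
  have hc := hh_cont hα ε
  have h := fourier_rep (fun ξ => (hh α ε ξ : ℂ)) (by fun_prop)
    (by rw [hh_left, hh_right]) (by rw [hcf]; exact Complex.ofRealCLM.summable hs) ξ
    ⟨hξ.1, by linarith [hξ.2]⟩
  rw [hcf] at h
  have e : hh α ε ξ = 1 - |ξ| ^ α := by
    unfold hh
    rw [if_pos hξ.2]
    rfl
  rw [e] at h
  exact h

theorem beta_gt {α₀ : ℝ} (h1 : 1 < α₀) (h2 : α₀ < 2) (h0 : rho α₀ = 0) : α₀ < beta0 := by
  rw [rho_eq] at h0
  have hpi := Real.pi_pos
  have hS3 : 0 < S α₀ 3 := by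
    have := S3_gt h1 h2
    linarith
  set ε : ℝ := α₀ * (α₀ - 1) * (S α₀ 3 / 2) / (18 * Real.pi ^ 2) with hε
  have hα0 : 0 < α₀ * (α₀ - 1) := mul_pos (by linarith) (by linarith)
  have hεpos : 0 < ε := by positivity
  have c3 := (S_continuousAt 3 h1).eventually (lt_mem_nhds (by linarith : S α₀ 3 / 2 < S α₀ 3))
  have c1 : ∀ᶠ α in 𝓝 α₀, |S α 1| < 2 * ε / (9 * Real.pi) := by
    have hca : ContinuousAt (fun α => |S α 1|) α₀ := (S_continuousAt 1 h1).abs
    refine hca.eventually (gt_mem_nhds ?_)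
    change |S α₀ 1| < _
    rw [h0, abs_zero]
    positivity
  have hright : ∀ᶠ α in 𝓝[>] α₀, α < 2 ∧ α₀ < α :=
    (Filter.Eventually.filter_mono nhdsWithin_le_nhds (gt_mem_nhds h2)).and self_mem_nhdsWithin
  obtain ⟨α, ⟨hα2, hα0'⟩, hc3, hc1⟩ := (hright.and ((c3.filter_mono nhdsWithin_le_nhds).and
    (c1.filter_mono nhdsWithin_le_nhds))).exists
  have hmono : α₀ * (α₀ - 1) ≤ α * (α - 1) := by nlinarith
  have hpd : PosDefOnInterval α := by
    refine posdef_near (ε := ε) (by linarith) hα2 hεpos.le ?_ ?_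
    · have e : 18 * Real.pi ^ 2 * ε = α₀ * (α₀ - 1) * (S α₀ 3 / 2) := by
        rw [hε]; field_simp
      rw [e]
      exact mul_le_mul hmono hc3.le (by linarith) (hα0.le.trans hmono)
    · have : 2 * (2 * ε / (9 * Real.pi)) = 4 * ε / (9 * Real.pi) := by ring
      rw [← this]
      linarith
  exact lt_of_lt_of_le hα0' (le_csSup bddAbove_set ⟨by linarith, hpd⟩)

theorem exists_root : ∃ α₀ ∈ Ioo (1 : ℝ) 2, rho α₀ = 0 := by
  have hpi := Real.pi_pos
  have hpi3 := Real.pi_gt_three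
  have hpi4 := Real.pi_lt_d2
  have hcont : ContinuousOn rho (Icc (11 / 10) 2) := by
    intro α hα
    have h1 : (1 : ℝ) < α := by linarith [hα.1]
    have : rho = fun α => S α 1 := funext rho_eq
    rw [this]
    exact (S_continuousAt 1 h1).continuousWithinAt
  have hr2 : rho 2 < 0 := by
    rw [rho_eq]
    unfold S fn
    norm_num
    have e : 3 * Real.pi / 2 = Real.pi / 2 + Real.pi := by ring
    rw [e, Real.sin_add_pi, Real.sin_pi_div_two]
    norm_num
  have hr1 : 0 < rho (11 / 10) := by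
    rw [rho_eq]
    unfold S
    have h1 : (1 : ℝ) < 11 / 10 := by norm_num
    rw [← intervalIntegral.integral_add_adjacent_intervals (fn_intervalIntegrable h1 0 1)
      (fn_intervalIntegrable h1 1 _)]
    have b1 : 5 ≤ ∫ t in (0 : ℝ)..1, fn (11 / 10) t := by
      have e : ∫ t in (0 : ℝ)..1, (1 / 2 : ℝ) * t ^ ((11 / 10 : ℝ) - 2) = 5 := by
        rw [intervalIntegral.integral_const_mul, integral_rpow (Or.inl (by norm_num))]
        norm_num
      rw [← e]
      refine intervalIntegral.integral_mono_on (by norm_num)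
        ((intervalIntegral.intervalIntegrable_rpow' (by norm_num)).const_mul _)
        (fn_intervalIntegrable h1 0 1) (fun t ht => ?_)
      unfold fn
      rw [mul_comm]
      refine mul_le_mul_of_nonneg_left ?_ (Real.rpow_nonneg ht.1 _)
      have := Real.one_sub_sq_div_two_le_cos (x := t)
      nlinarith [ht.1, ht.2]
    have b2 : -4 ≤ ∫ t in (1 : ℝ)..((2 * ((1 : ℕ) : ℝ) + 1) * Real.pi / 2), fn (11 / 10) t := by
      have hle : (1 : ℝ) ≤ (2 * ((1 : ℕ) : ℝ) + 1) * Real.pi / 2 := by push_cast; linarith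
      have e : ∫ _ in (1 : ℝ)..((2 * ((1 : ℕ) : ℝ) + 1) * Real.pi / 2), (-1 : ℝ)
          = -((2 * ((1 : ℕ) : ℝ) + 1) * Real.pi / 2 - 1) := by
        rw [intervalIntegral.integral_const]; simp
      have hm : ∫ _ in (1 : ℝ)..((2 * ((1 : ℕ) : ℝ) + 1) * Real.pi / 2), (-1 : ℝ)
          ≤ ∫ t in (1 : ℝ)..((2 * ((1 : ℕ) : ℝ) + 1) * Real.pi / 2), fn (11 / 10) t := by
        refine intervalIntegral.integral_mono_on hle (by simp)
          (fn_intervalIntegrable h1 1 _) (fun t ht => ?_)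
        unfold fn
        have hb : t ^ ((11 / 10 : ℝ) - 2) ≤ 1 :=
          Real.rpow_le_one_of_one_le_of_nonpos ht.1 (by norm_num)
        have hb0 : 0 ≤ t ^ ((11 / 10 : ℝ) - 2) := Real.rpow_nonneg (by linarith [ht.1]) _
        have hc := Real.neg_one_le_cos t
        nlinarith
      rw [e] at hm
      push_cast at hm ⊢
      linarith
    linarith
  have hivt := intermediate_value_Icc' (by norm_num : (11 / 10 : ℝ) ≤ 2) hcont
  obtain ⟨α₀, hα₀, hz⟩ := hivt ⟨hr2.le, hr1.le⟩
  refine ⟨α₀, ⟨by linarith [hα₀.1], lt_of_le_of_ne hα₀.2 ?_⟩, hz⟩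
  rintro rfl
  linarith

/-- **`β₀ > α₀`.** Romanov's number exists, and the separation point is larger. -/
theorem result : (∃ α₀ ∈ Ioo (1 : ℝ) 2, rho α₀ = 0) ∧
    ∀ α₀ ∈ Ioo (1 : ℝ) 2, rho α₀ = 0 → α₀ < beta0 :=
  ⟨exists_root, fun _ h h0 => beta_gt h.1 h.2 h0⟩

end Pool.Agent.Results.MP_e4dd62_an.BetaGtRomanov
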